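import Pool.Agent.U73.LR.Per
import Pool.Agent.N157.SZ_GAIN

set_option autoImplicit false

/-!
# The exponents of the primes in `|D| / N₆` are local conditions (helper73)
-/

namespace Pool.Agent.U73.LR

open Finset Filter Topology
open Pool.Agent.N906.SZ

/-- the exponent of `p` in the prime-to-6 part of the conductor of a minimal model -/
def ce (p : ℕ) (a b : ℤ) : ℕ :=
  if 5 ≤ p ∧ (p : ℤ) ∣ Dd a b then (if (p : ℤ) ∣ a then 2 else 1) else 0

/-- minimal at `p` -/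
def Nm (p : ℕ) (a b : ℤ) : Prop := ¬ ((p : ℤ) ^ 4 ∣ a ∧ (p : ℤ) ^ 6 ∣ b)

/-- minimal at `p`, and `v_p(D) = g + f_p` -/
def Lc (p g : ℕ) (a b : ℤ) : Prop :=
  Nm p a b ∧ (p : ℤ) ^ (g + ce p a b) ∣ Dd a b ∧ ¬ (p : ℤ) ^ (g + ce p a b + 1) ∣ Dd a b

theorem ce_le (p : ℕ) (a b : ℤ) : ce p a b ≤ 2 := by
  unfold ce; split_ifs <;> omega

theorem dd_modEq {M a b a' b' : ℤ} (ha : a ≡ a' [ZMOD M]) (hb : b ≡ b' [ZMOD M]) :
    Dd a b ≡ Dd a' b' [ZMOD M] := by
  unfold Dd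
  exact Int.ModEq.sub ((ha.pow 3).mul_left 4) ((hb.pow 2).mul_left 27)

theorem dvd_iff_of_modEq {d M a a' : ℤ} (hd : d ∣ M) (h : a ≡ a' [ZMOD M]) : d ∣ a ↔ d ∣ a' := by
  have h1 : a ≡ a' [ZMOD d] := h.of_dvd hd
  exact h1.dvd_iff

theorem nm_per (p : ℕ) {k : ℕ} (hk : 6 ≤ k) : Per (p ^ k) (Nm p) := by
  intro a b a' b' ha hb
  have h4 : (p : ℤ) ^ 4 ∣ ((p ^ k : ℕ) : ℤ) := by
    push_cast; exact pow_dvd_pow _ (by omega)
  have h6 : (p : ℤ) ^ 6 ∣ ((p ^ k : ℕ) : ℤ) := by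
    push_cast; exact pow_dvd_pow _ hk
  unfold Nm
  rw [dvd_iff_of_modEq h4 ha, dvd_iff_of_modEq h6 hb]

theorem ce_per (p : ℕ) {k : ℕ} (hk : 1 ≤ k) {a b a' b' : ℤ} (ha : a ≡ a' [ZMOD (p ^ k : ℕ)])
    (hb : b ≡ b' [ZMOD (p ^ k : ℕ)]) : ce p a b = ce p a' b' := by
  have h1 : (p : ℤ) ∣ ((p ^ k : ℕ) : ℤ) := by
    push_cast; exact dvd_pow_self _ (by omega)
  have e1 := dvd_iff_of_modEq h1 (dd_modEq ha hb)
  have e2 := dvd_iff_of_modEq h1 ha
  unfold ce
  simp only [e1, e2]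

theorem lc_per (p g : ℕ) : Per (p ^ (g + 6)) (Lc p g) := by
  intro a b a' b' ha hb
  have h1 := nm_per p (k := g + 6) (by omega) a b a' b' ha hb
  have h2 := ce_per p (k := g + 6) (by omega) ha hb
  have hc := ce_le p a' b'
  have h3 : (p : ℤ) ^ (g + ce p a' b') ∣ ((p ^ (g + 6) : ℕ) : ℤ) := by
    push_cast; exact pow_dvd_pow _ (by omega)
  have h4 : (p : ℤ) ^ (g + ce p a' b' + 1) ∣ ((p ^ (g + 6) : ℕ) : ℤ) := by
    push_cast; exact pow_dvd_pow _ (by omega)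
  unfold Lc
  rw [h1, h2, dvd_iff_of_modEq h3 (dd_modEq ha hb), dvd_iff_of_modEq h4 (dd_modEq ha hb)]

/-- the proportion of the non-minimal residues is `p ^ (-10)` -/
theorem nm_rc {p : ℕ} (hp : p.Prime) : rc (p ^ 6) (Nm p) = 1 - 1 / (p : ℝ) ^ 10 := by
  classical
  have hp0 : 0 < p := hp.pos
  have hpR : (0 : ℝ) < p := by exact_mod_cast hp0
  rw [rc_def]
  have h1 : ((range (p ^ 6) ×ˢ range (p ^ 6)).filter (fun x : ℕ × ℕ => Nm p x.1 x.2)).card +
      ((range (p ^ 6) ×ˢ range (p ^ 6)).filter (fun x : ℕ × ℕ => ¬ Nm p x.1 x.2)).card =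
      (range (p ^ 6) ×ˢ range (p ^ 6)).card := by
    rw [Finset.card_filter_add_card_filter_not]
  have h2 : (range (p ^ 6) ×ˢ range (p ^ 6)).filter (fun x : ℕ × ℕ => ¬ Nm p x.1 x.2) =
      ((range (p ^ 2)).image (fun t => p ^ 4 * t)) ×ˢ {0} := by
    ext x
    simp only [Finset.mem_filter, Finset.mem_product, Finset.mem_range, Finset.mem_image,
      Finset.mem_singleton, Nm, not_not]
    constructor
    · rintro ⟨⟨h1, h2⟩, h3, h4⟩
      have h3' : p ^ 4 ∣ x.1 := by exact_mod_cast h3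
      have h4' : p ^ 6 ∣ x.2 := by exact_mod_cast h4
      refine ⟨?_, Nat.eq_zero_of_dvd_of_lt h4' h2⟩
      obtain ⟨t, ht⟩ := h3'
      refine ⟨t, ?_, ht.symm⟩
      have : p ^ 4 * t < p ^ 4 * p ^ 2 := by rw [← ht, ← pow_add]; exact h1
      exact lt_of_mul_lt_mul_left this (Nat.zero_le _)
    · rintro ⟨⟨t, ht, h1⟩, h2⟩
      refine ⟨⟨?_, ?_⟩, ?_, ?_⟩
      · rw [← h1]
        calc p ^ 4 * t < p ^ 4 * p ^ 2 := by
              exact Nat.mul_lt_mul_of_pos_left ht (by positivity)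
          _ = p ^ 6 := by rw [← pow_add]
      · rw [h2]; positivity
      · rw [← h1]; push_cast; exact Dvd.intro _ rfl
      · rw [h2]; simp
  have h3 : ((range (p ^ 6) ×ˢ range (p ^ 6)).filter (fun x : ℕ × ℕ => ¬ Nm p x.1 x.2)).card =
      p ^ 2 := by
    rw [h2, Finset.card_product, Finset.card_image_of_injective, Finset.card_range,
      Finset.card_singleton, mul_one]
    intro s t hst
    exact Nat.eq_of_mul_eq_mul_left (by positivity) hst
  rw [h3, Finset.card_product, Finset.card_range] at h1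
  have h4 : (((range (p ^ 6) ×ˢ range (p ^ 6)).filter (fun x : ℕ × ℕ => Nm p x.1 x.2)).card : ℝ) =
      (p : ℝ) ^ 12 - (p : ℝ) ^ 2 := by
    have : (((range (p ^ 6) ×ˢ range (p ^ 6)).filter (fun x : ℕ × ℕ => Nm p x.1 x.2)).card : ℝ) +
      (p : ℝ) ^ 2 = (p : ℝ) ^ 6 * (p : ℝ) ^ 6 := by exact_mod_cast h1
    have e12 : (p : ℝ) ^ 6 * (p : ℝ) ^ 6 = (p : ℝ) ^ 12 := by ring
    rw [e12] at this
    linarith
  rw [h4]
  push_cast
  field_simp

/-- the exponent of `p` in `N₆` -/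
theorem nc_fact {a b : ℤ} (hD : Dd a b ≠ 0) {p : ℕ} (hp : p.Prime) :
    (Nc a b).factorization p = ce p a b := by
  rw [Pool.Agent.N157.SZ.nc_eq, Nat.factorization_prod_apply]
  · have hD0 : (Dd a b).natAbs ≠ 0 := Int.natAbs_ne_zero.2 hD
    have h1 : ∀ q ∈ (Dd a b).natAbs.primeFactors.filter (fun q => 5 ≤ q),
        (q ^ fe q a).factorization p = if q = p then fe q a else 0 := by
      intro q hq
      have hqp := Nat.prime_of_mem_primeFactors (Finset.mem_filter.1 hq).1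
      rw [hqp.factorization_pow, Finsupp.single_apply]
    rw [Finset.sum_congr rfl h1, Finset.sum_ite_eq']
    unfold ce
    have hiff : p ∈ (Dd a b).natAbs.primeFactors.filter (fun q => 5 ≤ q) ↔
        (5 ≤ p ∧ (p : ℤ) ∣ Dd a b) := by
      rw [Finset.mem_filter, Nat.mem_primeFactors, Int.natCast_dvd]
      exact ⟨fun h => ⟨h.2, h.1.2.1⟩, fun h => ⟨⟨hp, h.2, hD0⟩, h.1⟩⟩
    by_cases h : 5 ≤ p ∧ (p : ℤ) ∣ Dd a b
    · rw [if_pos (hiff.2 h), if_pos h]
      unfold fe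
      rw [if_neg (by omega)]
    · rw [if_neg (fun h' => h (hiff.1 h')), if_neg h]
  · intro q hq
    have hqp := Nat.prime_of_mem_primeFactors (Finset.mem_filter.1 hq).1
    exact pow_ne_zero _ hqp.ne_zero

/-- the ratio `|D| / N₆` -/
def rt (a b : ℤ) : ℕ := (Dd a b).natAbs / Nc a b

theorem rt_mul (a b : ℤ) : (Dd a b).natAbs = rt a b * Nc a b := by
  unfold rt
  rw [Nat.div_mul_cancel Pool.Agent.N157.SZ.nc_dvd]

theorem nc_pos (a b : ℤ) : 0 < Nc a b := by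
  rw [Pool.Agent.N157.SZ.nc_eq]
  apply Finset.prod_pos
  intro q hq
  exact pow_pos (Nat.prime_of_mem_primeFactors (Finset.mem_filter.1 hq).1).pos _

theorem rt_pos {a b : ℤ} (hD : Dd a b ≠ 0) : 0 < rt a b := by
  rw [Nat.pos_iff_ne_zero]
  intro h
  have := rt_mul a b
  rw [h, zero_mul] at this
  exact hD (Int.natAbs_eq_zero.1 this)

/-- the exponent of `p` in the ratio -/
theorem rt_fact {a b : ℤ} (hM : Mn a b) {p : ℕ} (hp : p.Prime) (g : ℕ) :
    (rt a b).factorization p = g ↔ Lc p g a b := by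
  have hD := hM.1
  have hD0 : (Dd a b).natAbs ≠ 0 := Int.natAbs_ne_zero.2 hD
  have h1 : (Dd a b).natAbs.factorization p = (rt a b).factorization p + ce p a b := by
    rw [rt_mul, Nat.factorization_mul (rt_pos hD).ne' (nc_pos a b).ne', Finsupp.add_apply,
      nc_fact hD hp]
  have h2 : ∀ k : ℕ, (p : ℤ) ^ k ∣ Dd a b ↔ k ≤ (rt a b).factorization p + ce p a b := by
    intro k
    rw [← h1, ← hp.pow_dvd_iff_le_factorization hD0, ← Int.natCast_dvd]
    push_cast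
    rfl
  unfold Lc
  rw [h2, h2]
  have h3 : Nm p a b := hM.2 p hp
  constructor
  · intro h
    exact ⟨h3, by omega, by omega⟩
  · rintro ⟨-, h4, h5⟩
    omega

/-- primes `≥ 5` dividing the ratio -/
theorem cn_of_dvd {a b : ℤ} (hM : Mn a b) {p : ℕ} (hp : p.Prime) (h5 : 5 ≤ p)
    (hd : p ∣ rt a b) : Cn p a b ∧ (p : ℤ) ^ 2 ∣ Dd a b := by
  have hD := hM.1
  have hD0 : (Dd a b).natAbs ≠ 0 := Int.natAbs_ne_zero.2 hD
  have h1 : (Dd a b).natAbs.factorization p = (rt a b).factorization p + ce p a b := by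
    rw [rt_mul, Nat.factorization_mul (rt_pos hD).ne' (nc_pos a b).ne', Finsupp.add_apply,
      nc_fact hD hp]
  have h2 : ∀ k : ℕ, (p : ℤ) ^ k ∣ Dd a b ↔ k ≤ (rt a b).factorization p + ce p a b := by
    intro k
    rw [← h1, ← hp.pow_dvd_iff_le_factorization hD0, ← Int.natCast_dvd]
    push_cast
    rfl
  have h3 : 1 ≤ (rt a b).factorization p :=
    (hp.dvd_iff_one_le_factorization (rt_pos hD).ne').1 hd
  have h4 : (p : ℤ) ∣ Dd a b := by
    have := (h2 1).2 (by omega)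
    rwa [pow_one] at this
  have h6 : ce p a b = fe p a := by
    have h5' : ¬ p < 5 := by omega
    unfold ce fe
    rw [if_pos ⟨h5, h4⟩, if_neg h5']
  have h7 : 1 ≤ fe p a := by
    unfold fe
    rw [if_neg (by omega)]
    split_ifs <;> omega
  refine ⟨?_, (h2 2).2 (by omega)⟩
  intro q hq
  rw [hp.primeFactors, Finset.mem_singleton] at hq
  subst hq
  rw [hp.factorization_self]
  exact (h2 _).2 (by omega)

end Pool.Agent.U73.LR
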