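import Pool.Agent.U73.LR.Tl
import Pool.Agent.U73.SZ.Fin

set_option autoImplicit false

/-!
# The law of the ratio `|D| / N₆`: densities (helper73)
-/

namespace Pool.Agent.U73.LR

open Finset Filter Topology
open Pool.Agent.N906.SZ

/-- the local probability -/
noncomputable def lp (p g : ℕ) : ℝ := rc (p ^ (g + 6)) (Lc p g) / (1 - 1 / (p : ℝ) ^ 10)

/-- the partial products of `1 / ζ(10)` -/
noncomputable def W (z : ℕ) : ℝ := ∏ p ∈ Nat.primesBelow z, (1 - 1 / (p : ℝ) ^ 10)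

theorem w_pos {p : ℕ} (hp : p.Prime) : 0 < 1 - 1 / (p : ℝ) ^ 10 := by
  have : (1 : ℝ) < p := by exact_mod_cast hp.one_lt
  have h1 : (1 : ℝ) < (p : ℝ) ^ 10 := one_lt_pow₀ this (by norm_num)
  have : 1 / (p : ℝ) ^ 10 < 1 := by rw [div_lt_one (by positivity)]; exact h1
  linarith

theorem cnt_le_of {X : ℝ} {P Q : ℤ → ℤ → Prop} (h : ∀ q ∈ box X, P q.1 q.2 → Q q.1 q.2) :
    cnt X P ≤ cnt X Q := by
  classical
  unfold cnt
  refine Nat.cast_le.2 (Finset.card_le_card ?_)
  intro q hq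
  rw [Finset.mem_filter] at hq ⊢
  exact ⟨hq.1, h q hq.1 hq.2⟩

/-- eventually `3 X³ + 18 X⁵ / z ≤ 19 X⁵ / z` -/
theorem ev_small (z : ℕ) (hz : 1 ≤ z) : ∀ᶠ X : ℝ in atTop, 1 ≤ X ∧ 3 * X ^ 3 ≤ X ^ 5 / z := by
  filter_upwards [eventually_ge_atTop (3 * (z : ℝ) + 1)] with X hX
  have hz1 : (1 : ℝ) ≤ z := by exact_mod_cast hz
  have hX1 : 1 ≤ X := by linarith
  refine ⟨hX1, ?_⟩
  rw [le_div_iff₀ (by linarith)]
  have h2 : X ≤ X ^ 2 := by nlinarith
  have h3 : 3 * (z : ℝ) ≤ X ^ 2 := by linarith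
  calc 3 * X ^ 3 * z = X ^ 3 * (3 * z) := by ring
    _ ≤ X ^ 3 * X ^ 2 := by gcongr
    _ = X ^ 5 := by ring

/-- the exponents of finitely many primes -/
theorem dens_fin (S : Finset ℕ) (hS : ∀ p ∈ S, p.Prime) (g : ℕ → ℕ) :
    ∃ D : ℝ, Tendsto (fun X : ℝ => cnt X (fun a b => Mn a b ∧ ∀ p ∈ S, (rt a b).factorization p = g p) /
      X ^ 5) atTop (𝓝 D) ∧ Tendsto (fun z => 4 * W z * ∏ p ∈ S, lp p (g p)) atTop (𝓝 D) := by
  classical
  obtain ⟨L, hL⟩ : ∃ L : ℕ → ℤ → ℤ → Prop, L = fun p => if p ∈ S then Lc p (g p) else Nm p := ⟨_, rfl⟩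
  obtain ⟨k, hk⟩ : ∃ k : ℕ → ℕ, k = fun p => if p ∈ S then g p + 6 else 6 := ⟨_, rfl⟩
  have hper : ∀ p, Per (p ^ k p) (L p) := by
    intro p
    rw [hL, hk]
    by_cases hp : p ∈ S
    · simp only [if_pos hp]; exact lc_per p (g p)
    · simp only [if_neg hp]; exact nm_per p le_rfl
  obtain ⟨T, hT⟩ : ∃ T : ℕ → Finset ℕ, T = fun z => S ∪ Nat.primesBelow z := ⟨_, rfl⟩
  have hTp : ∀ z, ∀ p ∈ T z, p.Prime := by
    intro z p hp
    rw [hT] at hp
    simp only [Finset.mem_union] at hp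
    rcases hp with h | h
    · exact hS p h
    · exact Nat.prime_of_mem_primesBelow h
  obtain ⟨Q, hQ⟩ : ∃ Q : ℕ → ℤ → ℤ → Prop, Q = fun z a b => ∀ p ∈ T z, L p a b := ⟨_, rfl⟩
  have hdens : ∀ z, Tendsto (fun X : ℝ => cnt X (Q z) / X ^ 5) atTop
      (𝓝 (4 * ∏ p ∈ T z, rc (p ^ k p) (L p))) := by
    intro z
    obtain ⟨h1, h2, h3⟩ := rc_prod (T z) (hTp z) k L (fun p _ => hper p)
    have := dens_per h1 h2
    rw [h3] at this
    rw [hQ]
    exact this
  have hη : Tendsto (fun z : ℕ => (19 : ℝ) / z) atTop (𝓝 0) := tendsto_const_div_atTop_nhds_zero_nat 19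
  obtain ⟨D, hD1, hD2⟩ := approx
    (fun a b => Mn a b ∧ ∀ p ∈ S, (rt a b).factorization p = g p) Q _ _ hdens hη (by
    filter_upwards [eventually_ge_atTop 1] with z hz
    filter_upwards [ev_small z hz] with X hX
    obtain ⟨hX1, hX2⟩ := hX
    have h1 : cnt X (fun a b => Mn a b ∧ ∀ p ∈ S, (rt a b).factorization p = g p) ≤ cnt X (Q z) := by
      apply cnt_mono
      rintro a b ⟨h1, h2⟩
      rw [hQ]
      intro p hp
      have hpp := hTp z p hp
      rw [hL]
      by_cases hpS : p ∈ S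
      · simp only [if_pos hpS]
        exact (rt_fact h1 hpp (g p)).1 (h2 p hpS)
      · simp only [if_neg hpS]
        exact h1.2 p hpp
    have h2 : cnt X (Q z) ≤ cnt X (fun a b => Mn a b ∧ ∀ p ∈ S, (rt a b).factorization p = g p) +
        (cnt X (fun a b => Dd a b = 0) +
          cnt X (fun a b => Dd a b ≠ 0 ∧ ∃ p : ℕ, p.Prime ∧ z ≤ p ∧ ¬ Nm p a b)) := by
      refine le_trans ?_ ((cnt_or X _ _).trans (add_le_add_right (cnt_or X _ _) _))
      apply cnt_mono
      intro a b hq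
      rw [hQ] at hq
      by_cases h0 : Dd a b = 0
      · right; left; exact h0
      · by_cases h3 : ∃ p : ℕ, p.Prime ∧ z ≤ p ∧ ¬ Nm p a b
        · right; right; exact ⟨h0, h3⟩
        · left
          push Not at h3
          have hLN : ∀ p ∈ T z, Nm p a b := by
            intro p hp
            have := hq p hp
            rw [hL] at this
            by_cases hpS : p ∈ S
            · simp only [if_pos hpS] at this
              exact this.1
            · simp only [if_neg hpS] at this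
              exact this
          have hMn : Mn a b := by
            refine ⟨h0, fun p hp => ?_⟩
            by_cases hpz : z ≤ p
            · exact h3 p hp hpz
            · apply hLN
              rw [hT]
              simp only [Finset.mem_union]
              right
              exact Nat.mem_primesBelow.2 ⟨by omega, hp⟩
          refine ⟨hMn, fun p hp => ?_⟩
          have := hq p (by rw [hT]; simp only [Finset.mem_union]; left; exact hp)
          rw [hL] at this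
          simp only [if_pos hp] at this
          exact (rt_fact hMn (hS p hp) (g p)).2 this
    have h3 := cnt_zero hX1
    have h4 := cnt_nm hX1 z hz
    rw [abs_sub_comm, abs_of_nonneg (by linarith)]
    have e : (19 : ℝ) / z * X ^ 5 = X ^ 5 / z + 18 * X ^ 5 / z := by ring
    rw [e]
    linarith)
  refine ⟨D, hD1, hD2.congr' ?_⟩
  obtain ⟨B, hB⟩ : ∃ B : ℕ, ∀ p ∈ S, p < B := ⟨S.sup id + 1, fun p hp => Nat.lt_succ_of_le (Finset.le_sup (f := id) hp)⟩
  filter_upwards [eventually_ge_atTop B] with z hz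
  have hTz : T z = Nat.primesBelow z := by
    rw [hT]
    simp only
    rw [Finset.union_eq_right]
    intro p hp
    exact Nat.mem_primesBelow.2 ⟨(hB p hp).trans_le hz, hS p hp⟩
  have hSub : S ⊆ Nat.primesBelow z := by
    intro p hp
    exact Nat.mem_primesBelow.2 ⟨(hB p hp).trans_le hz, hS p hp⟩
  rw [hTz]
  have e1 : ∏ p ∈ Nat.primesBelow z, rc (p ^ k p) (L p) =
      (∏ p ∈ Nat.primesBelow z, (1 - 1 / (p : ℝ) ^ 10)) *
        ∏ p ∈ Nat.primesBelow z, (if p ∈ S then lp p (g p) else 1) := by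
    rw [← Finset.prod_mul_distrib]
    refine Finset.prod_congr rfl fun p hp => ?_
    have hpp := Nat.prime_of_mem_primesBelow hp
    rw [hL, hk]
    by_cases hpS : p ∈ S
    · simp only [if_pos hpS]
      unfold lp
      rw [mul_div_assoc', mul_div_cancel_left₀ _ (w_pos hpp).ne']
    · simp only [if_neg hpS, mul_one]
      exact nm_rc hpp
  have e2 : ∏ p ∈ Nat.primesBelow z, (if p ∈ S then lp p (g p) else 1) = ∏ p ∈ S, lp p (g p) := by
    rw [← Finset.prod_filter]
    congr 1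
    ext p
    rw [Finset.mem_filter]
    exact ⟨fun h => h.2, fun h => ⟨hSub h, h⟩⟩
  rw [e1, e2]
  unfold W
  ring

/-- the density of the minimal models with ratio `m` -/
theorem dens_pt (m : ℕ) (hm : 1 ≤ m) :
    ∃ D : ℝ, Tendsto (fun X : ℝ => cnt X (fun a b => Mn a b ∧ rt a b = m) / X ^ 5) atTop (𝓝 D) ∧
      Tendsto (fun z => 4 * W z * ∏ p ∈ Nat.primesBelow z, lp p (m.factorization p)) atTop (𝓝 D) := by
  classical
  obtain ⟨C, hC, hpr⟩ := cnt_pr
  obtain ⟨Q, hQ⟩ : ∃ Q : ℕ → ℤ → ℤ → Prop, Q = fun z a b => ∀ p ∈ Nat.primesBelow z,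
    Lc p (m.factorization p) a b := ⟨_, rfl⟩
  have hdens : ∀ z, Tendsto (fun X : ℝ => cnt X (Q z) / X ^ 5) atTop
      (𝓝 (4 * ∏ p ∈ Nat.primesBelow z, rc (p ^ (m.factorization p + 6)) (Lc p (m.factorization p)))) := by
    intro z
    obtain ⟨h1, h2, h3⟩ := rc_prod (Nat.primesBelow z) (fun p hp => Nat.prime_of_mem_primesBelow hp)
      (fun p => m.factorization p + 6) (fun p => Lc p (m.factorization p)) (fun p _ => lc_per p _)
    have := dens_per h1 h2
    rw [h3] at this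
    rw [hQ]
    exact this
  have hη : Tendsto (fun z : ℕ => (19 + 2 * C : ℝ) / z) atTop (𝓝 0) :=
    tendsto_const_div_atTop_nhds_zero_nat _
  obtain ⟨D, hD1, hD2⟩ := approx (fun a b => Mn a b ∧ rt a b = m) Q _ _ hdens hη (by
    filter_upwards [eventually_ge_atTop (m + 5)] with z hz
    have hz1 : 1 ≤ z := by omega
    have hzR : (0 : ℝ) < z := by exact_mod_cast (by omega : 0 < z)
    filter_upwards [ev_small z hz1, eventually_ge_atTop ((z : ℝ) ^ 2)] with X hX hXz
    obtain ⟨hX1, hX2⟩ := hX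
    have hX0 : 0 < X := by linarith
    have h1 : cnt X (fun a b => Mn a b ∧ rt a b = m) ≤ cnt X (Q z) := by
      apply cnt_mono
      rintro a b ⟨h1, h2⟩
      rw [hQ]
      intro p hp
      have hpp := Nat.prime_of_mem_primesBelow hp
      exact (rt_fact h1 hpp _).1 (by rw [h2])
    have h2 : cnt X (Q z) ≤ cnt X (fun a b => Mn a b ∧ rt a b = m) +
        (cnt X (fun a b => Dd a b = 0) +
          (cnt X (fun a b => Dd a b ≠ 0 ∧ ∃ p : ℕ, p.Prime ∧ z ≤ p ∧ ¬ Nm p a b) +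
            cnt X (fun a b => Mn a b ∧ ∃ p : ℕ, p.Prime ∧ z ≤ p ∧ p ∣ rt a b))) := by
      refine le_trans ?_ ((cnt_or X _ _).trans (add_le_add_right ((cnt_or X _ _).trans
        (add_le_add_right (cnt_or X _ _) _)) _))
      apply cnt_mono
      intro a b hq
      rw [hQ] at hq
      by_cases h0 : Dd a b = 0
      · right; left; exact h0
      · by_cases h3 : ∃ p : ℕ, p.Prime ∧ z ≤ p ∧ ¬ Nm p a b
        · right; right; left; exact ⟨h0, h3⟩
        · push Not at h3
          have hMn : Mn a b := by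
            refine ⟨h0, fun p hp => ?_⟩
            by_cases hpz : z ≤ p
            · exact h3 p hp hpz
            · exact (hq p (Nat.mem_primesBelow.2 ⟨by omega, hp⟩)).1
          by_cases h4 : ∃ p : ℕ, p.Prime ∧ z ≤ p ∧ p ∣ rt a b
          · right; right; right; exact ⟨hMn, h4⟩
          · left
            push Not at h4
            refine ⟨hMn, ?_⟩
            apply Nat.eq_of_factorization_eq (rt_pos h0).ne' (by omega)
            intro p
            by_cases hp : p.Prime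
            · by_cases hpz : z ≤ p
              · rw [Nat.factorization_eq_zero_of_not_dvd (h4 p hp hpz),
                  Nat.factorization_eq_zero_of_not_dvd]
                intro h
                have := Nat.le_of_dvd (by omega) h
                omega
              · exact (rt_fact hMn hp _).2 (hq p (Nat.mem_primesBelow.2 ⟨by omega, hp⟩))
            · rw [Nat.factorization_eq_zero_of_not_prime _ hp,
                Nat.factorization_eq_zero_of_not_prime _ hp]
    have h3 := cnt_zero hX1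
    have h4 := cnt_nm hX1 z hz1
    have h5 := hpr X z hX1 (by omega)
    have h6 : X ^ (9 / 2 : ℝ) ≤ X ^ 5 / z := by
      rw [le_div_iff₀ hzR]
      have e1 : (z : ℝ) ≤ X ^ (1 / 2 : ℝ) := by
        have : (z : ℝ) = ((z : ℝ) ^ 2) ^ (1 / 2 : ℝ) := by
          rw [← Real.rpow_natCast, ← Real.rpow_mul hzR.le]; norm_num
        rw [this]
        exact Real.rpow_le_rpow (by positivity) hXz (by norm_num)
      calc X ^ (9 / 2 : ℝ) * z ≤ X ^ (9 / 2 : ℝ) * X ^ (1 / 2 : ℝ) := by gcongr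
        _ = X ^ 5 := by
          rw [← Real.rpow_add hX0, ← Real.rpow_natCast]; norm_num
    have h7 : C * (X ^ 5 / z + X ^ (9 / 2 : ℝ)) ≤ C * (X ^ 5 / z + X ^ 5 / z) := by gcongr
    rw [abs_sub_comm, abs_of_nonneg (by linarith)]
    have e : (19 + 2 * C : ℝ) / z * X ^ 5 = X ^ 5 / z + (18 * X ^ 5 / z + C * (X ^ 5 / z + X ^ 5 / z)) := by
      ring
    rw [e]
    linarith)
  refine ⟨D, hD1, hD2.congr' (Eventually.of_forall fun z => ?_)⟩
  have e1 : ∏ p ∈ Nat.primesBelow z, rc (p ^ (m.factorization p + 6)) (Lc p (m.factorization p)) =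
      (∏ p ∈ Nat.primesBelow z, (1 - 1 / (p : ℝ) ^ 10)) *
        ∏ p ∈ Nat.primesBelow z, lp p (m.factorization p) := by
    rw [← Finset.prod_mul_distrib]
    refine Finset.prod_congr rfl fun p hp => ?_
    have hpp := Nat.prime_of_mem_primesBelow hp
    unfold lp
    rw [mul_div_assoc', mul_div_cancel_left₀ _ (w_pos hpp).ne']
  rw [e1]
  unfold W
  ring

/-- the set of the tail as a set -/
theorem cnt_large (X K : ℝ) : cnt X (fun a b => Mn a b ∧ K ≤ rt a b) =
    (({q : ℤ × ℤ | Mn q.1 q.2 ∧ |(q.1 : ℝ)| ≤ X ^ 2 ∧ |(q.2 : ℝ)| ≤ X ^ 3 ∧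
      K * (Nc q.1 q.2 : ℝ) ≤ |((Dd q.1 q.2 : ℤ) : ℝ)|}.ncard : ℕ) : ℝ) := by
  classical
  rw [cnt_def X (fun a b => Mn a b ∧ K ≤ rt a b), ← Set.ncard_coe_finset]
  congr 2
  ext q
  rw [Finset.mem_coe, Finset.mem_filter, mem_box]
  have hN : (0 : ℝ) < Nc q.1 q.2 := by exact_mod_cast nc_pos q.1 q.2
  have e : |((Dd q.1 q.2 : ℤ) : ℝ)| = rt q.1 q.2 * (Nc q.1 q.2 : ℝ) := by
    rw [← Int.cast_abs, Int.abs_eq_natAbs, rt_mul]; push_cast; ring
  constructor
  · rintro ⟨⟨h1, h2⟩, h3, h4⟩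
    refine ⟨h3, h1, h2, ?_⟩
    rw [e]
    gcongr
  · rintro ⟨h3, h1, h2, h4⟩
    refine ⟨⟨h1, h2⟩, h3, ?_⟩
    rw [e] at h4
    exact le_of_mul_le_mul_right h4 hN

theorem tail_hi (ε : ℝ) (hε : 0 < ε) : ∃ C : ℝ, ∀ X K : ℝ, 1 ≤ X → 1 ≤ K →
    cnt X (fun a b => Mn a b ∧ K ≤ rt a b) ≤ C * (X ^ 5 * K ^ (-1 + ε) + X ^ (4 + ε)) := by
  obtain ⟨C, hC⟩ := Pool.Agent.U73.SZ.tailA (fun a b => (Nc a b : ℝ)) (fun _ _ _ => le_rfl) ε hε
  refine ⟨C, fun X K hX hK => ?_⟩
  rw [cnt_large]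
  exact hC X K hX hK

theorem tail_lo : ∃ c : ℝ, 0 < c ∧ ∀ X K : ℝ, 1 ≤ K → K ≤ c * X →
    c * X ^ 5 / K ≤ cnt X (fun a b => Mn a b ∧ K ≤ rt a b) := by
  obtain ⟨c, hc, h⟩ := Pool.Agent.U73.SZ.tailB (fun a b => (Nc a b : ℝ)) 1 le_rfl
    (fun a b _ => by rw [one_mul])
  refine ⟨c, hc, fun X K hK hKX => ?_⟩
  rw [cnt_large]
  exact h X K hK hKX

end Pool.Agent.U73.LR
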