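import Pool.Agent.U73.LR.Loc
import Pool.Agent.U73.SZ.Up
import Pool.Agent.N945.SZ_PERA
import Pool.Agent.N56.SZ_CONIC
import Pool.Agent.N92.SZ_LP

set_option autoImplicit false

/-!
# Three small sets of pairs (helper73)
-/

namespace Pool.Agent.U73.LR

open Finset Filter Topology
open Pool.Agent.N906.SZ

theorem mem_Icc_floor (Y : ℝ) (a : ℤ) : a ∈ Icc (-⌊Y⌋) ⌊Y⌋ ↔ |(a : ℝ)| ≤ Y := by
  rw [Finset.mem_Icc, abs_le, neg_le, Int.le_floor, Int.le_floor]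
  push_cast
  constructor
  · rintro ⟨h1, h2⟩; exact ⟨by linarith, h2⟩
  · rintro ⟨h1, h2⟩; exact ⟨by linarith, h2⟩

theorem mem_box (X : ℝ) (q : ℤ × ℤ) : q ∈ box X ↔ |(q.1 : ℝ)| ≤ X ^ 2 ∧ |(q.2 : ℝ)| ≤ X ^ 3 := by
  unfold box
  rw [Finset.mem_product, mem_Icc_floor, mem_Icc_floor]

theorem dd_le {X : ℝ} {q : ℤ × ℤ} (hq : q ∈ box X) :
    |((Dd q.1 q.2 : ℤ) : ℝ)| ≤ 31 * X ^ 6 := by
  obtain ⟨h1, h2⟩ := (mem_box X q).1 hq
  unfold Dd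
  push_cast
  have e1 : |(4 : ℝ) * (q.1 : ℝ) ^ 3| ≤ 4 * X ^ 6 := by
    rw [abs_mul, abs_pow, abs_of_pos (by norm_num : (0 : ℝ) < 4)]
    calc 4 * |(q.1 : ℝ)| ^ 3 ≤ 4 * (X ^ 2) ^ 3 := by gcongr
      _ = 4 * X ^ 6 := by ring
  have e2 : |(27 : ℝ) * (q.2 : ℝ) ^ 2| ≤ 27 * X ^ 6 := by
    rw [abs_mul, abs_pow, abs_of_pos (by norm_num : (0 : ℝ) < 27)]
    calc 27 * |(q.2 : ℝ)| ^ 2 ≤ 27 * (X ^ 3) ^ 2 := by gcongr
      _ = 27 * X ^ 6 := by ring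
  calc |4 * (q.1 : ℝ) ^ 3 - 27 * (q.2 : ℝ) ^ 2| ≤ |4 * (q.1 : ℝ) ^ 3| + |27 * (q.2 : ℝ) ^ 2| := abs_sub _ _
    _ ≤ _ := by linarith

theorem sum_inv_sq (z : ℕ) (hz : 1 ≤ z) (N : ℕ) :
    ∑ p ∈ Finset.Icc z N, (1 : ℝ) / (p : ℝ) ^ 2 ≤ 2 / z := by
  have hz0 : (0 : ℝ) < z := by exact_mod_cast hz
  have key : ∀ N : ℕ, z ≤ N + 1 → ∑ p ∈ Finset.Icc z N, (1 : ℝ) / (p : ℝ) ^ 2 ≤ 2 / z - 2 / ((N : ℝ) + 1) := by
    intro N
    induction N with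
    | zero =>
      intro h
      have : z = 1 := by omega
      subst this
      simp
    | succ N ih =>
      intro h
      by_cases h1 : z ≤ N + 1
      · rw [← Finset.insert_Icc_right_eq_Icc_add_one h1, Finset.sum_insert (by simp)]
        have := ih h1
        have e : (1 : ℝ) / (((N + 1 : ℕ) : ℝ)) ^ 2 ≤ 2 / ((N : ℝ) + 1) - 2 / (((N + 1 : ℕ) : ℝ) + 1) := by
          push_cast
          rw [div_sub_div _ _ (by positivity) (by positivity), div_le_div_iff₀ (by positivity) (by positivity)]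
          have hN : (0 : ℝ) ≤ N := Nat.cast_nonneg N
          nlinarith [mul_nonneg hN hN, mul_nonneg (mul_nonneg hN hN) hN]
        linarith
      · have : z = N + 2 := by omega
        subst this
        rw [Finset.Icc_eq_empty (by omega), Finset.sum_empty]
        push_cast
        have : (2 : ℝ) / (N + 2) - 2 / (N + 1 + 1) = 0 := by ring_nf
        linarith
  by_cases h : z ≤ N + 1
  · have h1 := key N h
    have h2 : (0 : ℝ) ≤ 2 / ((N : ℝ) + 1) := by positivity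
    linarith
  · rw [Finset.Icc_eq_empty (by omega), Finset.sum_empty]
    positivity

/-- the discriminant `0` -/
theorem cnt_zero {X : ℝ} (hX : 1 ≤ X) : cnt X (fun a b => Dd a b = 0) ≤ 3 * X ^ 3 := by
  rw [cnt_def X (fun a b => Dd a b = 0)]
  apply Pool.Agent.U73.SZ.zero_card hX
  intro x hx
  rw [Finset.mem_filter, mem_box] at hx
  exact ⟨hx.1.2, hx.2⟩

/-- the pairs which are not minimal at a prime `≥ z` -/
theorem cnt_nm {X : ℝ} (hX : 1 ≤ X) (z : ℕ) (hz : 1 ≤ z) :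
    cnt X (fun a b => Dd a b ≠ 0 ∧ ∃ p : ℕ, p.Prime ∧ z ≤ p ∧ ¬ Nm p a b) ≤ 18 * X ^ 5 / z := by
  classical
  have hX0 : 0 < X := by linarith
  obtain ⟨G, hG⟩ : ∃ G : ℕ → Finset (ℤ × ℤ), G = fun p => (box X).filter
    (fun q => Dd q.1 q.2 ≠ 0 ∧ 1 ≤ p ∧ ¬ Nm p q.1 q.2) := ⟨_, rfl⟩
  have hG' : ∀ p x, x ∈ G p ↔ (|(x.1 : ℝ)| ≤ X ^ 2 ∧ |(x.2 : ℝ)| ≤ X ^ 3) ∧ Dd x.1 x.2 ≠ 0 ∧ 1 ≤ p ∧
      ((p : ℤ) ^ 4 ∣ x.1 ∧ (p : ℤ) ^ 6 ∣ x.2) := by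
    intro p x
    rw [hG]
    simp only [Finset.mem_filter, mem_box, Nm, not_not]
  have hsize : ∀ p x, x ∈ G p → (p : ℝ) ^ 2 ≤ X := by
    intro p x hx
    rw [hG'] at hx
    obtain ⟨⟨h1, h2⟩, h3, h4, h5, h6⟩ := hx
    by_contra hcon
    push Not at hcon
    apply h3
    have ha : x.1 = 0 := by
      by_contra hne
      have h7 := Int.le_of_dvd (abs_pos.2 hne) ((dvd_abs _ _).2 h5)
      have h8 : (p : ℝ) ^ 4 ≤ |(x.1 : ℝ)| := by exact_mod_cast h7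
      nlinarith
    have hb : x.2 = 0 := by
      by_contra hne
      have h7 := Int.le_of_dvd (abs_pos.2 hne) ((dvd_abs _ _).2 h6)
      have h8 : (p : ℝ) ^ 6 ≤ |(x.2 : ℝ)| := by exact_mod_cast h7
      have h9 : X ^ 3 < ((p : ℝ) ^ 2) ^ 3 := by gcongr
      nlinarith
    rw [ha, hb]; unfold Dd; norm_num
  have hcard : ∀ p : ℕ, 1 ≤ p → ((G p).card : ℝ) ≤ 9 * X ^ 5 * (1 / (p : ℝ) ^ 2) := by
    intro p hp
    have hp0 : (0 : ℝ) < p := by exact_mod_cast hp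
    have hp1 : (1 : ℝ) ≤ p := by exact_mod_cast hp
    by_cases hpX : (p : ℝ) ^ 2 ≤ X
    · have g1 : 1 ≤ X ^ 2 / (p : ℝ) ^ 4 := by
        rw [one_le_div (by positivity)]
        calc (p : ℝ) ^ 4 = ((p : ℝ) ^ 2) ^ 2 := by ring
          _ ≤ X ^ 2 := by gcongr
      have g2 : 1 ≤ X ^ 3 / (p : ℝ) ^ 6 := by
        rw [one_le_div (by positivity)]
        calc (p : ℝ) ^ 6 = ((p : ℝ) ^ 2) ^ 3 := by ring
          _ ≤ X ^ 3 := by gcongr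
      have g3 := Pool.Agent.U73.SZ.card_Icc_le _ g1
      have g4 := Pool.Agent.U73.SZ.card_Icc_le _ g2
      have hpz : (p : ℤ) ≠ 0 := by exact_mod_cast (by omega : p ≠ 0)
      have g5 : (G p).card ≤ ((Icc (-⌊X ^ 2 / (p : ℝ) ^ 4⌋) ⌊X ^ 2 / (p : ℝ) ^ 4⌋) ×ˢ
          (Icc (-⌊X ^ 3 / (p : ℝ) ^ 6⌋) ⌊X ^ 3 / (p : ℝ) ^ 6⌋)).card := by
        apply Finset.card_le_card_of_injOn (fun q : ℤ × ℤ => (q.1 / (p : ℤ) ^ 4, q.2 / (p : ℤ) ^ 6))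
        · intro x hx
          rw [Finset.mem_coe, hG'] at hx
          obtain ⟨⟨h1, h2⟩, h3, h4, ⟨s, h5⟩, ⟨t, h6⟩⟩ := hx
          have e1 : x.1 / (p : ℤ) ^ 4 = s := by rw [h5]; exact Int.mul_ediv_cancel_left _ (pow_ne_zero _ hpz)
          have e2 : x.2 / (p : ℤ) ^ 6 = t := by rw [h6]; exact Int.mul_ediv_cancel_left _ (pow_ne_zero _ hpz)
          rw [Finset.mem_coe, Finset.mem_product, mem_Icc_floor, mem_Icc_floor]
          simp only [e1, e2]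
          rw [h5] at h1
          rw [h6] at h2
          push_cast at h1 h2
          rw [abs_mul, abs_pow, Nat.abs_cast] at h1 h2
          rw [le_div_iff₀ (by positivity), le_div_iff₀ (by positivity)]
          exact ⟨by linarith, by linarith⟩
        · intro x hx y hy hxy
          rw [Finset.mem_coe, hG'] at hx hy
          obtain ⟨-, -, -, h5, h6⟩ := hx
          obtain ⟨-, -, -, h7, h8⟩ := hy
          simp only [Prod.mk.injEq] at hxy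
          ext
          · rw [← Int.ediv_mul_cancel h5, hxy.1, Int.ediv_mul_cancel h7]
          · rw [← Int.ediv_mul_cancel h6, hxy.2, Int.ediv_mul_cancel h8]
      rw [Finset.card_product] at g5
      calc ((G p).card : ℝ) ≤ ((Icc (-⌊X ^ 2 / (p : ℝ) ^ 4⌋) ⌊X ^ 2 / (p : ℝ) ^ 4⌋).card : ℝ) *
            ((Icc (-⌊X ^ 3 / (p : ℝ) ^ 6⌋) ⌊X ^ 3 / (p : ℝ) ^ 6⌋).card : ℝ) := by exact_mod_cast g5
        _ ≤ (3 * (X ^ 2 / (p : ℝ) ^ 4)) * (3 * (X ^ 3 / (p : ℝ) ^ 6)) := by gcongr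
        _ = 9 * X ^ 5 * (1 / (p : ℝ) ^ 10) := by field_simp; ring
        _ ≤ 9 * X ^ 5 * (1 / (p : ℝ) ^ 2) := by
            have : (p : ℝ) ^ 2 ≤ (p : ℝ) ^ 10 := pow_le_pow_right₀ hp1 (by norm_num)
            gcongr
    · have : G p = ∅ := by
        rw [Finset.eq_empty_iff_forall_notMem]
        intro x hx
        exact hpX (hsize p x hx)
      rw [this, Finset.card_empty]
      push_cast
      positivity
  have hsub : (box X).filter (fun q => Dd q.1 q.2 ≠ 0 ∧ ∃ p : ℕ, p.Prime ∧ z ≤ p ∧ ¬ Nm p q.1 q.2) ⊆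
      (Finset.Icc z ⌊X⌋₊).biUnion G := by
    intro x hx
    rw [Finset.mem_filter] at hx
    obtain ⟨h1, h2, p, h3, h4, h5⟩ := hx
    have h6 : x ∈ G p := by
      rw [hG]; simp only [Finset.mem_filter]
      exact ⟨h1, h2, h3.one_lt.le, h5⟩
    have h7 := hsize p x h6
    rw [Finset.mem_biUnion]
    refine ⟨p, ?_, h6⟩
    rw [Finset.mem_Icc]
    refine ⟨h4, Nat.le_floor ?_⟩
    have : (1 : ℝ) ≤ p := by exact_mod_cast h3.one_lt.le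
    nlinarith
  rw [cnt_def X (fun a b => Dd a b ≠ 0 ∧ ∃ p : ℕ, p.Prime ∧ z ≤ p ∧ ¬ Nm p a b)]
  have h1 := (Finset.card_le_card hsub).trans Finset.card_biUnion_le
  calc (((box X).filter (fun q => Dd q.1 q.2 ≠ 0 ∧ ∃ p : ℕ, p.Prime ∧ z ≤ p ∧ ¬ Nm p q.1 q.2)).card : ℝ)
      ≤ ∑ p ∈ Finset.Icc z ⌊X⌋₊, ((G p).card : ℝ) := by exact_mod_cast h1
    _ ≤ ∑ p ∈ Finset.Icc z ⌊X⌋₊, 9 * X ^ 5 * (1 / (p : ℝ) ^ 2) := by
        refine Finset.sum_le_sum fun p hp => hcard p ?_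
        have := (Finset.mem_Icc.1 hp).1
        omega
    _ = 9 * X ^ 5 * ∑ p ∈ Finset.Icc z ⌊X⌋₊, (1 / (p : ℝ) ^ 2) := by rw [Finset.mul_sum]
    _ ≤ 9 * X ^ 5 * (2 / z) := by
        have := sum_inv_sq z hz ⌊X⌋₊
        gcongr
    _ = _ := by ring

/-- the minimal models for which a prime `≥ z` divides the ratio -/
theorem cnt_pr : ∃ C : ℝ, 0 < C ∧ ∀ (X : ℝ) (z : ℕ), 1 ≤ X → 5 ≤ z →
    cnt X (fun a b => Mn a b ∧ ∃ p : ℕ, p.Prime ∧ z ≤ p ∧ p ∣ rt a b) ≤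
      C * (X ^ 5 / z + X ^ (9 / 2 : ℝ)) := by
  classical
  obtain ⟨C₁, hC₁, h1⟩ := Pool.Agent.N945.SZ.pera
  obtain ⟨C₂, hC₂, h2⟩ := Pool.Agent.N92.SZ.lp Pool.Agent.N56.SZ.conic (1 / 2) (by norm_num)
  refine ⟨372 * C₁ + C₂ + 3, by positivity, fun X z hX hz => ?_⟩
  have hX0 : 0 < X := by linarith
  have hz0 : (0 : ℝ) < z := by exact_mod_cast (by omega : 0 < z)
  obtain ⟨F, hF⟩ : ∃ F : Finset (ℤ × ℤ), F = (box X).filter (fun q => Mn q.1 q.2 ∧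
    ∃ p : ℕ, p.Prime ∧ z ≤ p ∧ p ∣ rt q.1 q.2) := ⟨_, rfl⟩
  have hF' : ∀ x, x ∈ F ↔ x ∈ box X ∧ Mn x.1 x.2 ∧ ∃ p : ℕ, p.Prime ∧ z ≤ p ∧ p ∣ rt x.1 x.2 := by
    intro x; rw [hF, Finset.mem_filter]
  obtain ⟨G, hG⟩ : ∃ G : ℕ → Finset (ℤ × ℤ), G = fun p => F.filter
    (fun q => q.1 ≠ 0 ∧ p.Prime ∧ p ∣ rt q.1 q.2) := ⟨_, rfl⟩
  have hN : (⌊X ^ 2⌋₊ : ℝ) ≤ X ^ 2 := Nat.floor_le (by positivity)
  have hGc : ∀ p ∈ Finset.Icc z ⌊X ^ 2⌋₊, ((G p).card : ℝ) ≤ 6 * C₁ * (31 * X ^ 5 * (1 / (p : ℝ) ^ 2) + X ^ 2) := by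
    intro p hp
    rw [Finset.mem_Icc] at hp
    by_cases hpp : p.Prime
    · have h5 : 5 ≤ p := hz.trans hp.1
      have hp0 : (0 : ℝ) < p := by exact_mod_cast hpp.pos
      have hco : p.Coprime 6 := by
        rw [hpp.coprime_iff_not_dvd]
        intro h
        have h6 : p ≤ 6 := Nat.le_of_dvd (by norm_num) h
        interval_cases p
        · omega
        · exact absurd hpp (by norm_num)
      have h3 := h1 X (31 * X ^ 6) p hX (by nlinarith [one_le_pow₀ hX (n := 6)]) hpp.one_lt.le hco (G p) (by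
        intro x hx
        rw [hG] at hx
        simp only [Finset.mem_filter] at hx
        obtain ⟨h4, h6, -, h7⟩ := hx
        rw [hF'] at h4
        exact ⟨h6, h4.2.1, ((mem_box X x).1 h4.1).1, dd_le h4.1, (cn_of_dvd h4.2.1 hpp h5 h7).1⟩)
      have e1 : rd p = p := by
        unfold rd
        rw [hpp.primeFactors, Finset.filter_singleton, if_pos h5, Finset.prod_singleton]
      have e2 : (6 : ℝ) ^ p.primeFactors.card = 6 := by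
        rw [hpp.primeFactors, Finset.card_singleton, pow_one]
      rw [e1, e2] at h3
      have e3 : (31 * X ^ 6) ^ (5 / 6 : ℝ) ≤ 31 * X ^ 5 := by
        rw [Real.mul_rpow (by norm_num) (by positivity)]
        have e4 : (X ^ 6) ^ (5 / 6 : ℝ) = X ^ 5 := by
          rw [← Real.rpow_natCast, ← Real.rpow_mul hX0.le, ← Real.rpow_natCast]
          norm_num
        have e5 : (31 : ℝ) ^ (5 / 6 : ℝ) ≤ 31 := by
          calc (31 : ℝ) ^ (5 / 6 : ℝ) ≤ 31 ^ (1 : ℝ) :=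
                Real.rpow_le_rpow_of_exponent_le (by norm_num) (by norm_num)
            _ = 31 := Real.rpow_one _
        rw [e4]
        gcongr
      refine h3.trans ?_
      push_cast
      calc C₁ * 6 * ((31 * X ^ 6) ^ (5 / 6 : ℝ) / ((p : ℝ) * p) + X ^ 2) ≤
          C₁ * 6 * (31 * X ^ 5 / ((p : ℝ) * p) + X ^ 2) := by gcongr
        _ = _ := by ring
    · have : G p = ∅ := by
        rw [hG, Finset.eq_empty_iff_forall_notMem]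
        intro x hx
        simp only [Finset.mem_filter] at hx
        exact hpp hx.2.2.1
      rw [this, Finset.card_empty]
      push_cast
      positivity
  obtain ⟨F₀, hF₀⟩ : ∃ F₀, F₀ = F.filter (fun q => q.1 = 0) := ⟨_, rfl⟩
  obtain ⟨F₂, hF₂⟩ : ∃ F₂, F₂ = F.filter (fun q => q.1 ≠ 0 ∧ ∃ p : ℕ, X ^ 2 ≤ p ∧
    (p : ℤ) ^ 2 ∣ Dd q.1 q.2) := ⟨_, rfl⟩
  have hsub : F ⊆ F₀ ∪ ((Finset.Icc z ⌊X ^ 2⌋₊).biUnion G ∪ F₂) := by
    intro x hx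
    obtain ⟨h3, h4, p, h5, h6, h7⟩ := (hF' x).1 hx
    rw [Finset.mem_union, Finset.mem_union, Finset.mem_biUnion]
    by_cases h0 : x.1 = 0
    · left; rw [hF₀, Finset.mem_filter]; exact ⟨hx, h0⟩
    · right
      by_cases hpX : (p : ℝ) ≤ X ^ 2
      · left
        refine ⟨p, ?_, ?_⟩
        · rw [Finset.mem_Icc]; exact ⟨h6, Nat.le_floor hpX⟩
        · rw [hG]; simp only [Finset.mem_filter]; exact ⟨hx, h0, h5, h7⟩
      · right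
        rw [hF₂, Finset.mem_filter]
        exact ⟨hx, h0, p, (not_le.1 hpX).le, (cn_of_dvd h4 h5 (hz.trans h6) h7).2⟩
  have c0 : (F₀.card : ℝ) ≤ 3 * X ^ 3 := by
    refine le_trans ?_ (Pool.Agent.U73.SZ.card_Icc_le (X ^ 3) (one_le_pow₀ hX))
    have : F₀.card ≤ (Icc (-⌊X ^ 3⌋) ⌊X ^ 3⌋).card := by
      apply Finset.card_le_card_of_injOn (fun q : ℤ × ℤ => q.2)
      · intro x hx
        rw [Finset.mem_coe, hF₀, Finset.mem_filter, hF', mem_box] at hx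
        rw [Finset.mem_coe, mem_Icc_floor]
        exact hx.1.1.2
      · intro x hx y hy hxy
        rw [Finset.mem_coe, hF₀, Finset.mem_filter] at hx hy
        ext
        · rw [hx.2, hy.2]
        · exact hxy
    exact_mod_cast this
  have c2 : (F₂.card : ℝ) ≤ C₂ * X ^ (8 + 1 / 2 : ℝ) / (X ^ 2) ^ 2 := by
    apply h2 X (X ^ 2) hX (one_le_pow₀ hX)
    intro x hx
    rw [hF₂, Finset.mem_filter, hF', mem_box] at hx
    obtain ⟨⟨⟨h3, h4⟩, h5, -⟩, h6, p, h7, h8⟩ := hx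
    exact ⟨h6, h3, h4, h5.1, p, h7, h8⟩
  have c1 : (((Finset.Icc z ⌊X ^ 2⌋₊).biUnion G).card : ℝ) ≤ 6 * C₁ * (31 * X ^ 5 * (2 / z) + X ^ 2 * X ^ 2) := by
    have h3 : ((Finset.Icc z ⌊X ^ 2⌋₊).biUnion G).card ≤ ∑ p ∈ Finset.Icc z ⌊X ^ 2⌋₊, (G p).card :=
      Finset.card_biUnion_le
    calc (((Finset.Icc z ⌊X ^ 2⌋₊).biUnion G).card : ℝ) ≤ ∑ p ∈ Finset.Icc z ⌊X ^ 2⌋₊, ((G p).card : ℝ) := by
          exact_mod_cast h3
      _ ≤ ∑ p ∈ Finset.Icc z ⌊X ^ 2⌋₊, 6 * C₁ * (31 * X ^ 5 * (1 / (p : ℝ) ^ 2) + X ^ 2) :=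
          Finset.sum_le_sum hGc
      _ = 6 * C₁ * (31 * X ^ 5 * (∑ p ∈ Finset.Icc z ⌊X ^ 2⌋₊, (1 / (p : ℝ) ^ 2)) +
            (Finset.Icc z ⌊X ^ 2⌋₊).card * X ^ 2) := by
          rw [← Finset.mul_sum, Finset.sum_add_distrib, ← Finset.mul_sum, Finset.sum_const, nsmul_eq_mul]
      _ ≤ _ := by
          have h4 := sum_inv_sq z (by omega) ⌊X ^ 2⌋₊
          have h5 : ((Finset.Icc z ⌊X ^ 2⌋₊).card : ℝ) ≤ X ^ 2 := by
            refine le_trans ?_ hN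
            rw [Nat.card_Icc]
            exact_mod_cast (by omega : ⌊X ^ 2⌋₊ + 1 - z ≤ ⌊X ^ 2⌋₊)
          gcongr
  have e6 : X ^ (8 + 1 / 2 : ℝ) / (X ^ 2) ^ 2 = X ^ (9 / 2 : ℝ) := by
    rw [← pow_mul, ← Real.rpow_natCast, ← Real.rpow_sub hX0]
    norm_num
  have e7 : X ^ 4 ≤ X ^ (9 / 2 : ℝ) := by
    rw [← Real.rpow_natCast]
    exact Real.rpow_le_rpow_of_exponent_le hX (by norm_num)
  have e8 : X ^ 3 ≤ X ^ (9 / 2 : ℝ) := by
    rw [← Real.rpow_natCast]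
    exact Real.rpow_le_rpow_of_exponent_le hX (by norm_num)
  rw [mul_div_assoc, e6] at c2
  have hcnt : cnt X (fun a b => Mn a b ∧ ∃ p : ℕ, p.Prime ∧ z ≤ p ∧ p ∣ rt a b) = (F.card : ℝ) := by
    rw [cnt_def X (fun a b => Mn a b ∧ ∃ p : ℕ, p.Prime ∧ z ≤ p ∧ p ∣ rt a b), hF]
  rw [hcnt]
  have h8 : F.card ≤ F₀.card + (((Finset.Icc z ⌊X ^ 2⌋₊).biUnion G).card + F₂.card) :=
    (Finset.card_le_card hsub).trans ((Finset.card_union_le _ _).trans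
      (Nat.add_le_add_left (Finset.card_union_le _ _) _))
  have h9 : (F.card : ℝ) ≤ F₀.card + ((((Finset.Icc z ⌊X ^ 2⌋₊).biUnion G).card : ℝ) + F₂.card) := by
    exact_mod_cast h8
  have e9 : (0 : ℝ) ≤ X ^ 5 / z := by positivity
  have e10 : (0 : ℝ) ≤ X ^ (9 / 2 : ℝ) := by positivity
  calc (F.card : ℝ) ≤ 3 * X ^ 3 + (6 * C₁ * (31 * X ^ 5 * (2 / z) + X ^ 2 * X ^ 2) +
        C₂ * X ^ (9 / 2 : ℝ)) := by linarith
    _ = 3 * X ^ 3 + 372 * C₁ * (X ^ 5 / z) + 6 * C₁ * X ^ 4 + C₂ * X ^ (9 / 2 : ℝ) := by ring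
    _ ≤ 3 * X ^ (9 / 2 : ℝ) + 372 * C₁ * (X ^ 5 / z) + 6 * C₁ * X ^ (9 / 2 : ℝ) +
        C₂ * X ^ (9 / 2 : ℝ) := by gcongr
    _ ≤ _ := by nlinarith [mul_nonneg hC₁.le e9, mul_nonneg hC₂.le e9, mul_nonneg hC₁.le e10]

end Pool.Agent.U73.LR
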