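import Mathlib

set_option autoImplicit false

/-!
# Periodic sets of pairs of integers in boxes, and the Chinese remainder theorem (helper73)
-/

namespace Pool.Agent.U73.LR

open Finset Filter Topology

/-- the pairs with `|a| ≤ X²`, `|b| ≤ X³` -/
noncomputable def box (X : ℝ) : Finset (ℤ × ℤ) :=
  Icc (-⌊X ^ 2⌋) ⌊X ^ 2⌋ ×ˢ Icc (-⌊X ^ 3⌋) ⌊X ^ 3⌋

open Classical in
/-- the number of the pairs in the box with the property `P` -/
noncomputable def cnt (X : ℝ) (P : ℤ → ℤ → Prop) : ℝ :=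
  (((box X).filter (fun q => P q.1 q.2)).card : ℝ)

/-- periodic modulo `M` -/
def Per (M : ℕ) (P : ℤ → ℤ → Prop) : Prop :=
  ∀ a b a' b' : ℤ, a ≡ a' [ZMOD M] → b ≡ b' [ZMOD M] → (P a b ↔ P a' b')

open Classical in
/-- the proportion of the residues with the property `P` -/
noncomputable def rc (M : ℕ) (P : ℤ → ℤ → Prop) : ℝ :=
  (((range M ×ˢ range M).filter (fun x : ℕ × ℕ => P x.1 x.2)).card : ℝ) / (M : ℝ) ^ 2

theorem rc_def (M : ℕ) (P : ℤ → ℤ → Prop) [DecidablePred fun x : ℕ × ℕ => P x.1 x.2] : rc M P =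
    (((range M ×ˢ range M).filter (fun x : ℕ × ℕ => P x.1 x.2)).card : ℝ) / (M : ℝ) ^ 2 := by
  unfold rc
  congr!

theorem cnt_def (X : ℝ) (P : ℤ → ℤ → Prop) [DecidablePred fun q : ℤ × ℤ => P q.1 q.2] :
    cnt X P = (((box X).filter (fun q => P q.1 q.2)).card : ℝ) := by
  unfold cnt
  congr!

theorem abs_one (M : ℕ) (hM : 0 < M) (r n : ℤ) (hn : 0 ≤ n) :
    |(((Icc (-n) n).filter (fun x => x ≡ r [ZMOD M])).card : ℝ) - 2 * n / M| ≤ 3 := by
  have hM' : (0 : ℤ) < M := by exact_mod_cast hM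
  have e1 : Icc (-n) n = Ioc (-n - 1) n := by
    ext x; simp only [Finset.mem_Icc, Finset.mem_Ioc]; omega
  have h1 := Int.Ioc_filter_modEq_card (-n - 1) n hM' r
  rw [← e1] at h1
  have hMQ : (1 : ℚ) ≤ M := by exact_mod_cast hM
  have hM0 : (0 : ℚ) < M := by linarith
  have h2 : (((Icc (-n) n).filter (fun x => x ≡ r [ZMOD M])).card : ℚ) =
      max ((⌊((n : ℚ) - r) / ((M : ℤ) : ℚ)⌋ : ℚ) - ⌊(((-n - 1 : ℤ) : ℚ) - r) / ((M : ℤ) : ℚ)⌋) 0 := by
    have := congrArg (fun z : ℤ => (z : ℚ)) h1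
    push_cast at this ⊢
    exact this
  have e2 : ((M : ℤ) : ℚ) = (M : ℚ) := by push_cast; rfl
  rw [e2] at h2
  have f1 := Int.floor_le (((n : ℚ) - r) / (M : ℚ))
  have f2 := Int.lt_floor_add_one (((n : ℚ) - r) / (M : ℚ))
  have f3 := Int.floor_le ((((-n - 1 : ℤ) : ℚ) - r) / (M : ℚ))
  have f4 := Int.lt_floor_add_one ((((-n - 1 : ℤ) : ℚ) - r) / (M : ℚ))
  have e3 : ((n : ℚ) - r) / (M : ℚ) - (((-n - 1 : ℤ) : ℚ) - r) / (M : ℚ) = 2 * n / M + 1 / M := by
    push_cast; field_simp; ring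
  have e4 : (0 : ℚ) < 1 / M := by positivity
  have e5 : (1 : ℚ) / M ≤ 1 := by rw [div_le_one hM0]; exact hMQ
  have e6 : (0 : ℚ) ≤ 2 * n / M := by
    have : (0 : ℚ) ≤ n := by exact_mod_cast hn
    positivity
  have hQ : |(((Icc (-n) n).filter (fun x => x ≡ r [ZMOD M])).card : ℚ) - 2 * n / M| ≤ 3 := by
    rw [h2, abs_le]
    constructor
    · have := le_max_left ((⌊((n : ℚ) - r) / (M : ℚ)⌋ : ℚ) - ⌊(((-n - 1 : ℤ) : ℚ) - r) / (M : ℚ)⌋) 0
      linarith
    · have : max ((⌊((n : ℚ) - r) / (M : ℚ)⌋ : ℚ) - ⌊(((-n - 1 : ℤ) : ℚ) - r) / (M : ℚ)⌋) 0 ≤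
          2 * n / M + 3 := max_le (by linarith) (by linarith)
      linarith
  have := (Rat.cast_le (K := ℝ)).2 hQ
  push_cast at this
  exact this

theorem tends_one (M : ℕ) (hM : 0 < M) (r : ℤ) : Tendsto (fun Y : ℝ =>
    (((Icc (-⌊Y⌋) ⌊Y⌋).filter (fun x => x ≡ r [ZMOD M])).card : ℝ) / Y) atTop (𝓝 (2 / M)) := by
  have hM1 : (1 : ℝ) ≤ M := by exact_mod_cast hM
  have hM0 : (0 : ℝ) < M := by linarith
  rw [tendsto_iff_norm_sub_tendsto_zero]
  refine squeeze_zero' (Eventually.of_forall fun _ => norm_nonneg _) ?_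
    (tendsto_const_nhds.div_atTop tendsto_id : Tendsto (fun Y : ℝ => 5 / Y) atTop (𝓝 0))
  filter_upwards [eventually_ge_atTop (1 : ℝ)] with Y hY
  have hY0 : 0 < Y := by linarith
  have hn : 0 ≤ ⌊Y⌋ := Int.floor_nonneg.2 hY0.le
  have h1 := abs_one M hM r ⌊Y⌋ hn
  obtain ⟨c, hc⟩ : ∃ c : ℝ, c = (((Icc (-⌊Y⌋) ⌊Y⌋).filter (fun x => x ≡ r [ZMOD M])).card : ℝ) :=
    ⟨_, rfl⟩
  rw [← hc] at h1 ⊢
  have h2 : |2 * (⌊Y⌋ : ℝ) / M - 2 * Y / M| ≤ 2 := by
    have f1 := Int.floor_le Y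
    have f2 := Int.lt_floor_add_one Y
    rw [← sub_div, abs_div, abs_of_pos hM0, div_le_iff₀ hM0, abs_le]
    constructor <;> nlinarith
  have h3 : |c - 2 * Y / M| ≤ 5 := by
    calc |c - 2 * Y / M| = |(c - 2 * (⌊Y⌋ : ℝ) / M) + (2 * (⌊Y⌋ : ℝ) / M - 2 * Y / M)| := by ring_nf
      _ ≤ _ := abs_add_le _ _
      _ ≤ 5 := by linarith
  have e : c / Y - 2 / M = (c - 2 * Y / M) / Y := by field_simp
  rw [Real.norm_eq_abs, e, abs_div, abs_of_pos hY0]
  gcongr

theorem tendsto_pow_top (k : ℕ) (hk : k ≠ 0) : Tendsto (fun X : ℝ => X ^ k) atTop atTop :=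
  tendsto_pow_atTop hk

theorem Per.mod {M : ℕ} {P : ℤ → ℤ → Prop} (hP : Per M P) (a b : ℤ) :
    P a b ↔ P (a % M) (b % M) :=
  hP _ _ _ _ (Int.mod_modEq a M).symm (Int.mod_modEq b M).symm

/-- the density of a periodic set -/
theorem dens_per {M : ℕ} (hM : 0 < M) {P : ℤ → ℤ → Prop} (hP : Per M P) :
    Tendsto (fun X : ℝ => cnt X P / X ^ 5) atTop (𝓝 (4 * rc M P)) := by
  classical
  have hM' : (0 : ℤ) < M := by exact_mod_cast hM
  obtain ⟨R, hR⟩ : ∃ R : Finset (ℕ × ℕ), R = (range M ×ˢ range M).filter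
    (fun x : ℕ × ℕ => P x.1 x.2) := ⟨_, rfl⟩
  obtain ⟨F, hF⟩ : ∃ F : ℕ → ℝ → ℝ, F = fun (α : ℕ) (Y : ℝ) =>
    (((Icc (-⌊Y⌋) ⌊Y⌋).filter (fun x => x ≡ (α : ℤ) [ZMOD M])).card : ℝ) := ⟨_, rfl⟩
  have key : ∀ X : ℝ, cnt X P = ∑ x ∈ R, F x.1 (X ^ 2) * F x.2 (X ^ 3) := by
    intro X
    unfold cnt
    rw [Finset.card_eq_sum_card_fiberwise (f := fun q : ℤ × ℤ => ((q.1 % M).toNat, (q.2 % M).toNat))
      (t := R)]
    · push_cast
      refine Finset.sum_congr rfl fun x hx => ?_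
      rw [hF]
      simp only
      rw [← Nat.cast_mul, ← Finset.card_product]
      congr 2
      rw [hR, Finset.mem_filter, Finset.mem_product, Finset.mem_range, Finset.mem_range] at hx
      obtain ⟨⟨hx1, hx2⟩, hx3⟩ := hx
      ext q
      simp only [Finset.mem_filter, Finset.mem_product, box]
      have g1 := Int.emod_nonneg q.1 hM'.ne'
      have g2 := Int.emod_nonneg q.2 hM'.ne'
      have m1 : (x.1 : ℤ) % M = x.1 := Int.emod_eq_of_lt (by positivity) (by exact_mod_cast hx1)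
      have m2 : (x.2 : ℤ) % M = x.2 := Int.emod_eq_of_lt (by positivity) (by exact_mod_cast hx2)
      constructor
      · rintro ⟨⟨⟨h1, h2⟩, h3⟩, h4⟩
        have h5 : (q.1 % M).toNat = x.1 := by rw [← h4]
        have h6 : (q.2 % M).toNat = x.2 := by rw [← h4]
        refine ⟨⟨h1, ?_⟩, ⟨h2, ?_⟩⟩
        · show q.1 % M = x.1 % M
          rw [m1]; omega
        · show q.2 % M = x.2 % M
          rw [m2]; omega
      · rintro ⟨⟨h1, h3⟩, ⟨h2, h4⟩⟩
        have h5 : q.1 % M = x.1 := by have : q.1 % M = x.1 % M := h3; rw [this, m1]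
        have h6 : q.2 % M = x.2 := by have : q.2 % M = x.2 % M := h4; rw [this, m2]
        refine ⟨⟨⟨h1, h2⟩, ?_⟩, ?_⟩
        · exact (hP _ _ _ _ h3 h4).2 hx3
        · rw [h5, h6]; simp
    · intro q hq
      rw [Finset.mem_coe, Finset.mem_filter] at hq
      rw [Finset.mem_coe, hR, Finset.mem_filter, Finset.mem_product, Finset.mem_range,
        Finset.mem_range]
      have g1 := Int.emod_nonneg q.1 hM'.ne'
      have g2 := Int.emod_nonneg q.2 hM'.ne'
      have l1 := Int.emod_lt_of_pos q.1 hM'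
      have l2 := Int.emod_lt_of_pos q.2 hM'
      refine ⟨⟨by simp only; omega, by simp only; omega⟩, ?_⟩
      simp only
      rw [Int.toNat_of_nonneg g1, Int.toNat_of_nonneg g2]
      exact (hP.mod _ _).1 hq.2
  have h1 : Tendsto (fun X : ℝ => ∑ x ∈ R, (F x.1 (X ^ 2) / X ^ 2) * (F x.2 (X ^ 3) / X ^ 3)) atTop
      (𝓝 (∑ x ∈ R, (2 / (M : ℝ)) * (2 / M))) := by
    refine tendsto_finsetSum _ fun x _ => ?_
    refine Tendsto.mul ?_ ?_
    · rw [hF]
      exact (tends_one M hM x.1).comp (tendsto_pow_top 2 (by norm_num))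
    · rw [hF]
      exact (tends_one M hM x.2).comp (tendsto_pow_top 3 (by norm_num))
  have e1 : ∑ x ∈ R, (2 / (M : ℝ)) * (2 / M) = 4 * rc M P := by
    rw [Finset.sum_const, nsmul_eq_mul]
    unfold rc
    rw [hR]
    ring
  rw [e1] at h1
  refine h1.congr' ?_
  filter_upwards [eventually_gt_atTop (0 : ℝ)] with X hX
  rw [key X, Finset.sum_div]
  refine Finset.sum_congr rfl fun x _ => ?_
  field_simp

theorem Per.of_dvd {M N : ℕ} (h : M ∣ N) {P : ℤ → ℤ → Prop} (hP : Per M P) : Per N P :=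
  fun _ _ _ _ ha hb => hP _ _ _ _ (ha.of_dvd (by exact_mod_cast h)) (hb.of_dvd (by exact_mod_cast h))

theorem Per.and {M : ℕ} {P Q : ℤ → ℤ → Prop} (hP : Per M P) (hQ : Per M Q) :
    Per M (fun a b => P a b ∧ Q a b) :=
  fun _ _ _ _ ha hb => and_congr (hP _ _ _ _ ha hb) (hQ _ _ _ _ ha hb)

theorem Per.nat {M : ℕ} {P : ℤ → ℤ → Prop} (hP : Per M P) {a b a' b' : ℕ} (ha : a ≡ a' [MOD M])
    (hb : b ≡ b' [MOD M]) : P a b ↔ P a' b' :=
  hP _ _ _ _ ((Int.natCast_modEq_iff).2 ha) ((Int.natCast_modEq_iff).2 hb)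

/-- the Chinese remainder theorem -/
theorem rc_mul {M N : ℕ} (hM : 0 < M) (hN : 0 < N) (hco : M.Coprime N) {P Q : ℤ → ℤ → Prop}
    (hP : Per M P) (hQ : Per N Q) :
    rc (M * N) (fun a b => P a b ∧ Q a b) = rc M P * rc N Q := by
  classical
  have key : ((range (M * N) ×ˢ range (M * N)).filter
      (fun x : ℕ × ℕ => P x.1 x.2 ∧ Q x.1 x.2)).card =
      (((range M ×ˢ range M).filter (fun x : ℕ × ℕ => P x.1 x.2)) ×ˢ
        ((range N ×ˢ range N).filter (fun x : ℕ × ℕ => Q x.1 x.2))).card := by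
    refine Finset.card_nbij' (fun x => ((x.1 % M, x.2 % M), (x.1 % N, x.2 % N)))
      (fun y => ((Nat.chineseRemainder hco y.1.1 y.2.1 : ℕ),
        (Nat.chineseRemainder hco y.1.2 y.2.2 : ℕ))) ?_ ?_ ?_ ?_
    · intro x hx
      simp only [Finset.coe_filter, Finset.mem_product, Finset.mem_range, Set.mem_ofPred_eq,
        Finset.coe_product, Set.mem_prod] at hx ⊢
      obtain ⟨⟨h1, h2⟩, h3, h4⟩ := hx
      refine ⟨⟨⟨Nat.mod_lt _ hM, Nat.mod_lt _ hM⟩, ?_⟩, ⟨⟨Nat.mod_lt _ hN, Nat.mod_lt _ hN⟩, ?_⟩⟩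
      · exact (hP.nat (Nat.mod_modEq _ _).symm (Nat.mod_modEq _ _).symm).1 h3
      · exact (hQ.nat (Nat.mod_modEq _ _).symm (Nat.mod_modEq _ _).symm).1 h4
    · intro y hy
      simp only [Finset.coe_filter, Finset.mem_product, Finset.mem_range, Set.mem_ofPred_eq,
        Finset.coe_product, Set.mem_prod] at hy ⊢
      obtain ⟨⟨⟨h1, h2⟩, h3⟩, ⟨h4, h5⟩, h6⟩ := hy
      have c1 := (Nat.chineseRemainder hco y.1.1 y.2.1).2
      have c2 := (Nat.chineseRemainder hco y.1.2 y.2.2).2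
      refine ⟨⟨Nat.chineseRemainder_lt_mul hco _ _ hM.ne' hN.ne',
        Nat.chineseRemainder_lt_mul hco _ _ hM.ne' hN.ne'⟩, ?_, ?_⟩
      · exact (hP.nat c1.1 c2.1).2 h3
      · exact (hQ.nat c1.2 c2.2).2 h6
    · intro x hx
      simp only [Finset.coe_filter, Finset.mem_product, Finset.mem_range, Set.mem_ofPred_eq] at hx
      obtain ⟨⟨h1, h2⟩, -⟩ := hx
      have u : ∀ z < M * N, (Nat.chineseRemainder hco (z % M) (z % N) : ℕ) = z := by
        intro z hz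
        have h := Nat.chineseRemainder_modEq_unique hco (Nat.mod_modEq z M).symm
          (Nat.mod_modEq z N).symm
        have h' := Nat.chineseRemainder_lt_mul hco (z % M) (z % N) hM.ne' hN.ne'
        have h'' : z % (M * N) = _ % (M * N) := h
        rw [Nat.mod_eq_of_lt hz, Nat.mod_eq_of_lt h'] at h''
        exact h''.symm
      simp only
      rw [u _ h1, u _ h2]
    · intro y hy
      simp only [Finset.coe_filter, Finset.mem_product, Finset.mem_range, Set.mem_ofPred_eq,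
        Finset.coe_product, Set.mem_prod] at hy
      obtain ⟨⟨⟨h1, h2⟩, -⟩, ⟨h4, h5⟩, -⟩ := hy
      have c1 := (Nat.chineseRemainder hco y.1.1 y.2.1).2
      have c2 := (Nat.chineseRemainder hco y.1.2 y.2.2).2
      have d1 : (Nat.chineseRemainder hco y.1.1 y.2.1 : ℕ) % M = y.1.1 := by
        have : _ % M = y.1.1 % M := c1.1
        rw [this, Nat.mod_eq_of_lt h1]
      have d2 : (Nat.chineseRemainder hco y.1.2 y.2.2 : ℕ) % M = y.1.2 := by
        have : _ % M = y.1.2 % M := c2.1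
        rw [this, Nat.mod_eq_of_lt h2]
      have d3 : (Nat.chineseRemainder hco y.1.1 y.2.1 : ℕ) % N = y.2.1 := by
        have : _ % N = y.2.1 % N := c1.2
        rw [this, Nat.mod_eq_of_lt h4]
      have d4 : (Nat.chineseRemainder hco y.1.2 y.2.2 : ℕ) % N = y.2.2 := by
        have : _ % N = y.2.2 % N := c2.2
        rw [this, Nat.mod_eq_of_lt h5]
      simp only [d1, d2, d3, d4]
  have key' : (((range (M * N) ×ˢ range (M * N)).filter
      (fun x : ℕ × ℕ => P x.1 x.2 ∧ Q x.1 x.2)).card : ℝ) =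
      (((range M ×ˢ range M).filter (fun x : ℕ × ℕ => P x.1 x.2)).card : ℝ) *
        (((range N ×ˢ range N).filter (fun x : ℕ × ℕ => Q x.1 x.2)).card : ℝ) := by
    rw [key, Finset.card_product]; push_cast; rfl
  have hM0 : (M : ℝ) ≠ 0 := by exact_mod_cast hM.ne'
  have hN0 : (N : ℝ) ≠ 0 := by exact_mod_cast hN.ne'
  have e : ((M * N : ℕ) : ℝ) = (M : ℝ) * N := by push_cast; rfl
  rw [rc_def (M * N), rc_def M, rc_def N, key', e]
  field_simp

theorem rc_true (M : ℕ) (hM : 0 < M) : rc M (fun _ _ => True) = 1 := by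
  unfold rc
  have : (M : ℝ) ≠ 0 := by exact_mod_cast hM.ne'
  simp only [Finset.filter_true, Finset.card_product, Finset.card_range]
  push_cast
  field_simp

/-- finitely many primes -/
theorem rc_prod (S : Finset ℕ) (hS : ∀ p ∈ S, p.Prime) (k : ℕ → ℕ) (L : ℕ → ℤ → ℤ → Prop)
    (hL : ∀ p ∈ S, Per (p ^ k p) (L p)) :
    0 < ∏ p ∈ S, p ^ k p ∧ Per (∏ p ∈ S, p ^ k p) (fun a b => ∀ p ∈ S, L p a b) ∧
      rc (∏ p ∈ S, p ^ k p) (fun a b => ∀ p ∈ S, L p a b) = ∏ p ∈ S, rc (p ^ k p) (L p) := by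
  classical
  induction S using Finset.induction_on with
  | empty =>
    refine ⟨by simp, ?_, ?_⟩
    · intro a b a' b' _ _; simp
    · simp only [Finset.prod_empty]
      have := rc_true 1 one_pos
      simpa using this
  | insert p S hpS ih =>
    obtain ⟨h1, h2, h3⟩ := ih (fun q hq => hS q (Finset.mem_insert_of_mem hq))
      (fun q hq => hL q (Finset.mem_insert_of_mem hq))
    have hp := hS p (Finset.mem_insert_self _ _)
    have hp0 : 0 < p ^ k p := pow_pos hp.pos _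
    have hco : (p ^ k p).Coprime (∏ q ∈ S, q ^ k q) := by
      apply Nat.Coprime.prod_right
      intro q hq
      apply Nat.Coprime.pow
      exact (Nat.coprime_primes hp (hS q (Finset.mem_insert_of_mem hq))).2 (by
        rintro rfl; exact hpS hq)
    have hLp := hL p (Finset.mem_insert_self _ _)
    have e : (fun a b : ℤ => ∀ q ∈ insert p S, L q a b) =
        fun a b => L p a b ∧ ∀ q ∈ S, L q a b := by
      funext a b
      exact propext (by rw [Finset.forall_mem_insert])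
    rw [Finset.prod_insert hpS, Finset.prod_insert hpS, e]
    refine ⟨Nat.mul_pos hp0 h1, ?_, ?_⟩
    · exact (hLp.of_dvd (Dvd.intro _ rfl)).and (h2.of_dvd (Dvd.intro_left _ rfl))
    · rw [rc_mul hp0 h1 hco hLp h2, h3]

theorem rc_nonneg (M : ℕ) (P : ℤ → ℤ → Prop) : 0 ≤ rc M P := by unfold rc; positivity

theorem cnt_nonneg (X : ℝ) (P : ℤ → ℤ → Prop) : 0 ≤ cnt X P := by unfold cnt; positivity

theorem cnt_mono (X : ℝ) {P Q : ℤ → ℤ → Prop} (h : ∀ a b, P a b → Q a b) : cnt X P ≤ cnt X Q := by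
  classical
  unfold cnt
  refine Nat.cast_le.2 (Finset.card_le_card ?_)
  intro q hq
  rw [Finset.mem_filter] at hq ⊢
  exact ⟨hq.1, h _ _ hq.2⟩

theorem cnt_or (X : ℝ) (P Q : ℤ → ℤ → Prop) : cnt X (fun a b => P a b ∨ Q a b) ≤ cnt X P + cnt X Q := by
  classical
  rw [cnt_def X (fun a b => P a b ∨ Q a b), cnt_def X P, cnt_def X Q, Finset.filter_or]
  exact_mod_cast Finset.card_union_le _ _

/-- the periodic set has a density independent of the modulus -/
theorem rc_eq {M N : ℕ} (hM : 0 < M) (hN : 0 < N) {P : ℤ → ℤ → Prop} (hP : Per M P)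
    (hQ : Per N P) : rc M P = rc N P := by
  have := tendsto_nhds_unique (dens_per hM hP) (dens_per hN hQ)
  linarith

/-- if `P` is approximated by sets `Q z` which have densities, then it has a density -/
theorem approx (P : ℤ → ℤ → Prop) (Q : ℕ → ℤ → ℤ → Prop) (d η : ℕ → ℝ)
    (hQ : ∀ z, Tendsto (fun X : ℝ => cnt X (Q z) / X ^ 5) atTop (𝓝 (d z)))
    (hη : Tendsto η atTop (𝓝 0))
    (h : ∀ᶠ z in atTop, ∀ᶠ X : ℝ in atTop, |cnt X P - cnt X (Q z)| ≤ η z * X ^ 5) :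
    ∃ D : ℝ, Tendsto (fun X : ℝ => cnt X P / X ^ 5) atTop (𝓝 D) ∧ Tendsto d atTop (𝓝 D) := by
  have h0 : ∀ᶠ z in atTop, ∀ᶠ X : ℝ in atTop, |cnt X P / X ^ 5 - d z| ≤ 2 * η z + 2 * |η z| + 1 / (z + 1) := by
    filter_upwards [h] with z hz
    have h1 : (0 : ℝ) < 1 / ((z : ℝ) + 1) := by positivity
    have h2 := (Metric.tendsto_nhds.1 (hQ z)) _ h1
    filter_upwards [hz, h2, eventually_gt_atTop (0 : ℝ)] with X g1 g2 hX
    rw [Real.dist_eq] at g2
    have hX5 : 0 < X ^ 5 := by positivity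
    have g3 : |cnt X P / X ^ 5 - cnt X (Q z) / X ^ 5| ≤ η z := by
      rw [← sub_div, abs_div, abs_of_pos hX5, div_le_iff₀ hX5]
      exact g1
    have g4 := abs_sub_le (cnt X P / X ^ 5) (cnt X (Q z) / X ^ 5) (d z)
    have g5 := le_abs_self (η z)
    have g6 := abs_nonneg (η z)
    have g7 : 0 ≤ η z := (abs_nonneg _).trans g3
    linarith
  obtain ⟨e, he⟩ : ∃ e : ℕ → ℝ, e = fun z => 2 * η z + 2 * |η z| + 1 / ((z : ℝ) + 1) := ⟨_, rfl⟩
  have he0 : Tendsto e atTop (𝓝 0) := by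
    rw [he]
    have a1 : Tendsto (fun z : ℕ => 2 * η z) atTop (𝓝 (2 * 0)) := hη.const_mul 2
    have a2 : Tendsto (fun z : ℕ => 2 * |η z|) atTop (𝓝 (2 * |(0 : ℝ)|)) := (hη.abs).const_mul 2
    have a3 : Tendsto (fun z : ℕ => 1 / ((z : ℝ) + 1)) atTop (𝓝 0) :=
      tendsto_one_div_add_atTop_nhds_zero_nat
    have := (a1.add a2).add a3
    simpa using this
  have h1 : ∀ᶠ z in atTop, ∀ᶠ X : ℝ in atTop, |cnt X P / X ^ 5 - d z| ≤ e z := by
    rw [he]; exact h0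
  -- the densities form a Cauchy sequence
  have hd : CauchySeq d := by
    rw [Metric.cauchySeq_iff']
    intro ε hε
    have h2 : ∀ᶠ z in atTop, e z < ε / 2 := (he0.eventually_lt_const (by linarith))
    obtain ⟨N, hN⟩ := eventually_atTop.1 (h1.and h2)
    refine ⟨N, fun n hn => ?_⟩
    obtain ⟨X, g1, g2⟩ := ((hN n hn).1.and (hN N le_rfl).1).exists
    rw [Real.dist_eq]
    have g3 := abs_sub_le (d n) (cnt X P / X ^ 5) (d N)
    rw [abs_sub_comm] at g1
    have := (hN n hn).2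
    have := (hN N le_rfl).2
    linarith
  obtain ⟨D, hD⟩ := cauchySeq_tendsto_of_complete hd
  refine ⟨D, ?_, hD⟩
  rw [Metric.tendsto_nhds]
  intro ε hε
  have h2 : ∀ᶠ z in atTop, e z < ε / 2 := (he0.eventually_lt_const (by linarith))
  have h3 := (Metric.tendsto_nhds.1 hD) (ε / 2) (by linarith)
  obtain ⟨z, g1, g2, g3⟩ := (h1.and (h2.and h3)).exists
  filter_upwards [g1] with X hX
  rw [Real.dist_eq] at g3 ⊢
  have := abs_sub_le (cnt X P / X ^ 5) (d z) D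
  linarith

end Pool.Agent.U73.LR
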